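import Mathlib

/-!
# Exponential domination in trees of bounded degree

In the complete `b`-ary tree of height `h` (`b ≥ 4`) every set of `2 ^ (2 h - 1)` leaves is exponential
dominating, because every vertex is at distance at most `2 h` from every leaf and a leaf is never an
internal vertex of a path. The tree has more than `b ^ h` vertices, so for `b = 5` the exponential
domination number is not bounded below by a constant times `n / log n`.
-/

set_option autoImplicit false

namespace Pool.Agent.Results.MP_75fda7_co.TreesBelowLinearH38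

open Finset Classical

/-- The lengths of the paths `P` of `G` from `u` to `v` such that exactly one endvertex of `P` lies in
`S` and no internal vertex of `P` lies in `S`. -/
def pathLengths {V : Type*} (G : SimpleGraph V) (S : Finset V) (u v : V) : Set ℕ :=
  {k | ∃ p : G.Walk u v, p.IsPath ∧ p.length = k ∧ ({x ∈ ({u, v} : Finset V) | x ∈ S}).card = 1 ∧
    ∀ x ∈ p.support, x ≠ u → x ≠ v → x ∉ S}

/-- `(1/2) ^ (dist_{(G,S)}(u,v) - 1)`, where `dist_{(G,S)}(u,v)` is the least element of
`pathLengths G S u v`, and the value is `0` if there is no such path. -/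
noncomputable def contribution {V : Type*} (G : SimpleGraph V) (S : Finset V) (u v : V) : ℝ :=
  if (pathLengths G S u v).Nonempty then (1 / 2 : ℝ) ^ (((sInf (pathLengths G S u v) : ℕ) : ℤ) - 1)
  else 0

/-- The weight `w_{(G,S)}(u)`. -/
noncomputable def weight {V : Type*} (G : SimpleGraph V) (S : Finset V) (u : V) : ℝ :=
  ∑ v ∈ S, contribution G S u v

/-- `S` is an exponential dominating set of `G`. -/
def IsExpDominating {V : Type*} (G : SimpleGraph V) (S : Finset V) : Prop :=
  ∀ u : V, 1 ≤ weight G S u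

/-- The exponential domination number `γ_e(G)`. -/
noncomputable def gammaE {V : Type*} (G : SimpleGraph V) : ℕ :=
  sInf {k | ∃ S : Finset V, IsExpDominating G S ∧ S.card = k}

/-! ### The tree -/

/-- The order of the complete `b`-ary tree of height `h`. -/
def ord (b : ℕ) : ℕ → ℕ
  | 0 => 1
  | h + 1 => b * ord b h + 1

lemma ord_pos (b h : ℕ) : 0 < ord b h := by
  cases h <;> simp [ord]

lemma ord_succ (b h : ℕ) : ord b (h + 1) = b * ord b h + 1 := rfl

lemma ord_diff (b h : ℕ) : ord b (h + 1) = ord b h + b ^ (h + 1) := by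
  induction h with
  | zero => simp [ord]; ring
  | succ h ih =>
    have h1 := ord_succ b h
    have h2 := ord_succ b (h + 1)
    have h3 : b ^ (h + 1 + 1) = b * b ^ (h + 1) := by ring
    have h4 : b * ord b (h + 1) = b * ord b h + b * b ^ (h + 1) := by rw [ih]; ring
    omega

/-- The complete `b`-ary tree of height `h`: the parent of the vertex `v > 0` is `(v - 1) / b`. -/
def tree (b h : ℕ) : SimpleGraph (Fin (ord b h)) where
  Adj u v := (0 < v.val ∧ u.val = (v.val - 1) / b) ∨ (0 < u.val ∧ v.val = (u.val - 1) / b)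
  symm := ⟨fun _ _ h => h.symm⟩
  loopless := ⟨by
    rintro v (⟨h1, h2⟩ | ⟨h1, h2⟩) <;>
    · have := Nat.div_le_self (v.val - 1) b
      omega⟩

lemma par_lt {b h : ℕ} {v : ℕ} (hv : v < ord b h) : (v - 1) / b < ord b h := by
  have := Nat.div_le_self (v - 1) b
  omega

lemma par_lt_self {b v : ℕ} (hv : 0 < v) : (v - 1) / b < v := by
  have := Nat.div_le_self (v - 1) b
  omega

/-- The root. -/
def root (b h : ℕ) : Fin (ord b h) := ⟨0, ord_pos b h⟩

lemma adj_par {b h : ℕ} (v : Fin (ord b h)) (hv : 0 < v.val) :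
    (tree b h).Adj v ⟨(v.val - 1) / b, par_lt v.2⟩ := Or.inr ⟨hv, rfl⟩

lemma walk_root {b h : ℕ} (hb : 0 < b) (k : ℕ) : ∀ v : Fin (ord b h), v.val < ord b k →
    ∃ p : (tree b h).Walk v (root b h), p.length ≤ k := by
  induction k with
  | zero =>
    intro v hv
    have h0 : v = root b h := by
      apply Fin.ext
      simp only [ord] at hv
      simp only [root]
      omega
    subst h0
    exact ⟨SimpleGraph.Walk.nil, by simp⟩
  | succ k ih =>
    intro v hv
    rcases Nat.eq_zero_or_pos v.val with h0 | h0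
    · have h1 : v = root b h := Fin.ext h0
      subst h1
      exact ⟨SimpleGraph.Walk.nil, by simp⟩
    · have h2 : (v.val - 1) / b < ord b k := by
        rw [Nat.div_lt_iff_lt_mul hb]
        rw [ord_succ, Nat.mul_comm] at hv
        omega
      obtain ⟨p, hp⟩ := ih ⟨(v.val - 1) / b, par_lt v.2⟩ h2
      exact ⟨SimpleGraph.Walk.cons (adj_par v h0) p, by
        rw [SimpleGraph.Walk.length_cons]; omega⟩

lemma tree_connected {b h : ℕ} (hb : 0 < b) : (tree b h).Connected := by
  have hne : Nonempty (Fin (ord b h)) := ⟨root b h⟩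
  refine SimpleGraph.Connected.mk ?_
  intro u v
  obtain ⟨p, -⟩ := walk_root hb h u u.2
  obtain ⟨q, -⟩ := walk_root hb h v v.2
  exact ⟨p.append q.reverse⟩

lemma tree_dist {b h : ℕ} (hb : 0 < b) (u v : Fin (ord b h)) : (tree b h).dist u v ≤ 2 * h := by
  obtain ⟨p, hp⟩ := walk_root hb h u u.2
  obtain ⟨q, hq⟩ := walk_root hb h v v.2
  have h1 := (tree b h).dist_le (p.append q.reverse)
  rw [SimpleGraph.Walk.length_append, SimpleGraph.Walk.length_reverse] at h1
  omega

/-- parent map -/
def par {b h : ℕ} (v : Fin (ord b h)) : Fin (ord b h) := ⟨(v.val - 1) / b, par_lt v.2⟩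

lemma adj_iff {b h : ℕ} (u v : Fin (ord b h)) :
    (tree b h).Adj u v ↔ u ≠ v ∧ (par u = v ∨ par v = u) := by
  constructor
  · intro hadj
    refine ⟨hadj.ne, ?_⟩
    rcases hadj with ⟨h1, h2⟩ | ⟨h1, h2⟩
    · exact Or.inr (Fin.ext h2.symm)
    · exact Or.inl (Fin.ext h2.symm)
  · rintro ⟨hne, h1 | h1⟩
    · have h2 : (u.val - 1) / b = v.val := congrArg Fin.val h1
      rcases Nat.eq_zero_or_pos u.val with h0 | h0
      · exfalso
        apply hne
        apply Fin.ext
        rw [← h2, h0]
        simp
      · exact Or.inr ⟨h0, h2.symm⟩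
    · have h2 : (v.val - 1) / b = u.val := congrArg Fin.val h1
      rcases Nat.eq_zero_or_pos v.val with h0 | h0
      · exfalso
        apply hne
        apply Fin.ext
        rw [← h2, h0]
        simp
      · exact Or.inl ⟨h0, h2.symm⟩

/-- parent pointers give an acyclic graph -/
lemma tree_acyclic {b h : ℕ} : (tree b h).IsAcyclic := by
  have hiter : ∀ k (z : Fin (ord b h)), (par^[k] z).val ≤ z.val := by
    intro k
    induction k with
    | zero => intro z; exact le_rfl
    | succ k ih =>
      intro z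
      rw [Function.iterate_succ_apply]
      refine (ih (par z)).trans ?_
      have := Nat.div_le_self (z.val - 1) b
      show (z.val - 1) / b ≤ z.val
      omega
  have main : ∀ v w, v ≠ w → par v = w → (tree b h).IsBridge s(v, w) := by
    intro v w hvw hp
    have hlt : w.val < v.val := by
      rcases Nat.eq_zero_or_pos v.val with h0 | h0
      · exfalso
        apply hvw
        apply Fin.ext
        rw [← hp]
        show v.val = (v.val - 1) / b
        rw [h0]
        simp
      · rw [← hp]
        exact par_lt_self h0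
    rw [SimpleGraph.isBridge_iff]
    rintro ⟨q⟩
    have hw : ¬ ∃ k, par^[k] w = v := by
      rintro ⟨k, hk⟩
      have h1 := hiter k w
      rw [hk] at h1
      omega
    obtain ⟨⟨⟨x, y⟩, hadj⟩, -, hx, hy⟩ := q.exists_boundary_dart {z | ∃ k, par^[k] z = v} ⟨0, rfl⟩ hw
    replace hx : ∃ k, par^[k] x = v := hx
    replace hy : ¬ ∃ k, par^[k] y = v := hy
    rw [SimpleGraph.deleteEdges_adj] at hadj
    obtain ⟨hadj, hne⟩ := hadj
    rw [adj_iff] at hadj
    obtain ⟨k, hk⟩ := hx
    rcases hadj.2 with h | h
    · cases k with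
      | zero =>
        replace hk : x = v := hk
        subst hk
        rw [hp] at h
        subst h
        exact hne rfl
      | succ k =>
        rw [Function.iterate_succ_apply, h] at hk
        exact hy ⟨k, hk⟩
    · apply hy
      refine ⟨k + 1, ?_⟩
      rw [Function.iterate_succ_apply, h]
      exact hk
  rw [SimpleGraph.isAcyclic_iff_forall_adj_isBridge]
  intro v w hvw
  rw [adj_iff] at hvw
  rcases hvw.2 with h | h
  · exact main v w hvw.1 h
  · rw [Sym2.eq_swap]
    exact main w v hvw.1.symm h

lemma tree_degree {b h : ℕ} (hb : 0 < b) (v : Fin (ord b h)) : (tree b h).degree v ≤ b + 1 := by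
  rw [← SimpleGraph.card_neighborFinset_eq_degree]
  have hsub : ((tree b h).neighborFinset v).image Fin.val ⊆
      insert ((v.val - 1) / b) ((Finset.range b).image (fun i => b * v.val + 1 + i)) := by
    intro x hx
    rw [Finset.mem_image] at hx
    obtain ⟨w, hw, rfl⟩ := hx
    rw [SimpleGraph.mem_neighborFinset] at hw
    rw [Finset.mem_insert, Finset.mem_image]
    rcases hw with ⟨h1, h2⟩ | ⟨h1, h2⟩
    · right
      refine ⟨(w.val - 1) % b, Finset.mem_range.2 (Nat.mod_lt _ hb), ?_⟩
      have := Nat.div_add_mod (w.val - 1) b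
      rw [← h2] at this
      omega
    · exact Or.inl h2
  calc ((tree b h).neighborFinset v).card
      = (((tree b h).neighborFinset v).image Fin.val).card :=
        (Finset.card_image_of_injective _ Fin.val_injective).symm
    _ ≤ _ := Finset.card_le_card hsub
    _ ≤ ((Finset.range b).image (fun i => b * v.val + 1 + i)).card + 1 := Finset.card_insert_le _ _
    _ ≤ b + 1 := by
      have := Finset.card_image_le (s := Finset.range b) (f := fun i => b * v.val + 1 + i)
      rw [Finset.card_range] at this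
      omega

/-- A leaf: a vertex with at most one neighbour. -/
lemma leaf_unique {b h : ℕ} (hb : 0 < b) (x y z : Fin (ord b (h + 1))) (hx : ord b h ≤ x.val)
    (hy : (tree b (h + 1)).Adj x y) (hz : (tree b (h + 1)).Adj x z) : y = z := by
  have key : ∀ w : Fin (ord b (h + 1)), (tree b (h + 1)).Adj x w → w = par x := by
    rintro w (⟨h1, h2⟩ | ⟨h1, h2⟩)
    · exfalso
      have h3 : (w.val - 1) / b < ord b h := by
        rw [Nat.div_lt_iff_lt_mul hb]
        have h4 := w.2
        have h5 := ord_succ b h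
        rw [Nat.mul_comm] at h5
        omega
      omega
    · exact Fin.ext h2
  rw [key y hy, key z hz]

/-- An internal vertex of a path has two different neighbours. -/
lemma internal {V : Type*} {G : SimpleGraph V} {u v : V} (p : G.Walk u v) (hp : p.IsPath) (x : V)
    (hx : x ∈ p.support) (hxu : x ≠ u) (hxv : x ≠ v) :
    ∃ y z, y ≠ z ∧ G.Adj x y ∧ G.Adj x z := by
  induction p with
  | nil =>
    rw [SimpleGraph.Walk.support_nil, List.mem_singleton] at hx
    exact absurd hx hxu
  | @cons u w v hadj p ih =>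
    rw [SimpleGraph.Walk.cons_isPath_iff] at hp
    rw [SimpleGraph.Walk.support_cons, List.mem_cons] at hx
    rcases hx with hx | hx
    · exact absurd hx hxu
    · by_cases hxw : x = w
      · subst hxw
        cases p with
        | nil => exact absurd rfl hxv
        | @cons _ w' _ hadj' p' =>
          refine ⟨u, w', ?_, hadj.symm, hadj'⟩
          rintro rfl
          apply hp.2
          rw [SimpleGraph.Walk.support_cons, List.mem_cons]
          exact Or.inr p'.start_mem_support
      · exact ih hp.1 hx hxw hxv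

lemma contribution_nonneg {V : Type*} (G : SimpleGraph V) (S : Finset V) (u v : V) :
    0 ≤ contribution G S u v := by
  unfold contribution
  split_ifs
  · positivity
  · exact le_rfl

lemma contribution_self {V : Type*} (G : SimpleGraph V) (S : Finset V) (u : V) (hu : u ∈ S) :
    contribution G S u u = 2 := by
  have hmem : 0 ∈ pathLengths G S u u := by
    refine ⟨SimpleGraph.Walk.nil, SimpleGraph.Walk.IsPath.nil, rfl, ?_, ?_⟩
    · have : ({x ∈ ({u, u} : Finset V) | x ∈ S}) = {u} := by
        ext x
        simp only [Finset.mem_filter, Finset.mem_insert, Finset.mem_singleton, or_self]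
        constructor
        · exact fun h => h.1
        · rintro rfl
          exact ⟨rfl, hu⟩
      rw [this, Finset.card_singleton]
    · intro x hx hxu _
      rw [SimpleGraph.Walk.support_nil, List.mem_singleton] at hx
      exact absurd hx hxu
  have h0 : sInf (pathLengths G S u u) = 0 := Nat.sInf_eq_zero.2 (Or.inl hmem)
  unfold contribution
  rw [if_pos ⟨0, hmem⟩, h0]
  norm_num

lemma contribution_ge {V : Type*} (G : SimpleGraph V) (S : Finset V) (u v : V) (D : ℕ)
    (hG : G.Connected) (hu : u ∉ S) (hv : v ∈ S) (hd : G.dist u v ≤ D)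
    (hleaf : ∀ x ∈ S, ∀ y z, G.Adj x y → G.Adj x z → y = z) :
    (1 / 2 : ℝ) ^ ((D : ℤ) - 1) ≤ contribution G S u v := by
  obtain ⟨p, hp, hlen⟩ := hG.exists_path_of_dist u v
  have hmem : p.length ∈ pathLengths G S u v := by
    refine ⟨p, hp, rfl, ?_, ?_⟩
    · have : ({x ∈ ({u, v} : Finset V) | x ∈ S}) = {v} := by
        ext x
        simp only [Finset.mem_filter, Finset.mem_insert, Finset.mem_singleton]
        constructor
        · rintro ⟨rfl | rfl, h⟩
          · exact absurd h hu
          · rfl
        · rintro rfl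
          exact ⟨Or.inr rfl, hv⟩
      rw [this, Finset.card_singleton]
    · intro x hx hxu hxv hxS
      obtain ⟨y, z, hyz, h1, h2⟩ := internal p hp x hx hxu hxv
      exact hyz (hleaf x hxS y z h1 h2)
  have hle : sInf (pathLengths G S u v) ≤ D := (Nat.sInf_le hmem).trans (by omega)
  unfold contribution
  rw [if_pos ⟨_, hmem⟩]
  apply zpow_le_zpow_right_of_le_one₀ (by norm_num) (by norm_num)
  have : ((sInf (pathLengths G S u v) : ℕ) : ℤ) ≤ D := by exact_mod_cast hle
  omega

/-- The first `2 ^ (2 h + 1)` leaves of the tree of height `h + 1`. -/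
lemma gammaE_tree (b h : ℕ) (hb : 4 ≤ b) : gammaE (tree b (h + 1)) ≤ 2 ^ (2 * h + 1) := by
  have hb0 : 0 < b := by omega
  have hpow : 2 ^ (2 * h + 1) ≤ b ^ (h + 1) := by
    calc 2 ^ (2 * h + 1) ≤ 2 ^ (2 * (h + 1)) := Nat.pow_le_pow_right (by norm_num) (by omega)
      _ = 4 ^ (h + 1) := by rw [pow_mul]; norm_num
      _ ≤ b ^ (h + 1) := Nat.pow_le_pow_left hb _
  set S : Finset (Fin (ord b (h + 1))) :=
    Finset.univ.filter (fun v => ord b h ≤ v.val ∧ v.val < ord b h + 2 ^ (2 * h + 1)) with hS
  have hcard : S.card = 2 ^ (2 * h + 1) := by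
    have himg : S.image Fin.val = Finset.Ico (ord b h) (ord b h + 2 ^ (2 * h + 1)) := by
      ext x
      rw [Finset.mem_image, Finset.mem_Ico]
      constructor
      · rintro ⟨v, hv, rfl⟩
        rw [hS, Finset.mem_filter] at hv
        exact hv.2
      · rintro ⟨h1, h2⟩
        refine ⟨⟨x, ?_⟩, ?_, rfl⟩
        · rw [ord_diff]
          omega
        · rw [hS, Finset.mem_filter]
          exact ⟨Finset.mem_univ _, h1, h2⟩
    rw [← Finset.card_image_of_injective S Fin.val_injective, himg, Nat.card_Ico,
      Nat.add_sub_cancel_left]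
  have hleaf : ∀ x ∈ S, ∀ y z, (tree b (h + 1)).Adj x y → (tree b (h + 1)).Adj x z → y = z := by
    intro x hx y z hy hz
    rw [hS, Finset.mem_filter] at hx
    exact leaf_unique hb0 x y z hx.2.1 hy hz
  apply Nat.sInf_le
  refine ⟨S, ?_, hcard⟩
  intro u
  unfold weight
  by_cases hu : u ∈ S
  · calc (1 : ℝ) ≤ 2 := by norm_num
      _ = contribution (tree b (h + 1)) S u u := (contribution_self _ S u hu).symm
      _ ≤ _ := Finset.single_le_sum (f := fun v => contribution (tree b (h + 1)) S u v)
        (fun v _ => contribution_nonneg _ S u v) hu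
  · have h1 : ∀ v ∈ S, (1 / 2 : ℝ) ^ (((2 * (h + 1) : ℕ) : ℤ) - 1) ≤
        contribution (tree b (h + 1)) S u v := fun v hv =>
      contribution_ge _ S u v _ (tree_connected hb0) hu hv (tree_dist hb0 u v) hleaf
    have h2 := Finset.card_nsmul_le_sum S _ _ h1
    refine le_trans (le_of_eq ?_) h2
    have h3 : (((2 * (h + 1) : ℕ) : ℤ) - 1) = ((2 * h + 1 : ℕ) : ℤ) := by
      push_cast
      ring
    rw [hcard, h3, zpow_natCast, nsmul_eq_mul]
    push_cast
    rw [← mul_pow]
    norm_num

lemma pow_le_ord (b h : ℕ) : b ^ h ≤ ord b h := by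
  cases h with
  | zero => simp [ord]
  | succ h => rw [ord_diff]; omega

lemma ord_le_pow (b h : ℕ) (hb : 2 ≤ b) : ord b h < 2 * b ^ h := by
  induction h with
  | zero => simp [ord]
  | succ h ih =>
    rw [ord_succ, pow_succ]
    have h1 : b * (ord b h + 1) ≤ b * (2 * b ^ h) := Nat.mul_le_mul_left _ ih
    nlinarith

/-- For every `b ≥ 4` and `h ≥ 1` there is a tree of maximum degree at most `b + 1` with more than
`b ^ h` vertices and exponential domination number at most `2 ^ (2 h - 1)`. Consequently, for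
maximum degree at most `6` the exponential domination number of trees is not bounded below by a
positive constant times `n / log n`. -/
theorem result :
    (∀ b h : ℕ, 4 ≤ b → 1 ≤ h → ∃ (n : ℕ) (T : SimpleGraph (Fin n)), T.IsTree ∧
      (∀ v, T.degree v ≤ b + 1) ∧ b ^ h < n ∧ gammaE T ≤ 2 ^ (2 * h - 1)) ∧
    ¬ ∃ c : ℝ, 0 < c ∧ ∀ (n : ℕ) (T : SimpleGraph (Fin n)), T.IsTree → (∀ v, T.degree v ≤ 6) →
      2 ≤ n → c * (n / Real.log n) ≤ gammaE T := by
  constructor
  · intro b h hb hh
    obtain ⟨h, rfl⟩ : ∃ k, h = k + 1 := ⟨h - 1, by omega⟩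
    refine ⟨ord b (h + 1), tree b (h + 1), ⟨tree_connected (by omega), tree_acyclic⟩,
      fun v => ?_, ?_, ?_⟩
    · convert tree_degree (by omega) v
    · rw [ord_diff]
      have := ord_pos b h
      omega
    · have : 2 * (h + 1) - 1 = 2 * h + 1 := by omega
      rw [this]
      exact gammaE_tree b h hb
  · rintro ⟨c, hc, hT⟩
    -- `c 5^(h+1) ≤ 2^(2h+1) log(2 * 5^(h+1))`
    have key : ∀ h : ℕ, c * 5 ^ (h + 1) ≤ 4 ^ (h + 1) * ((h : ℝ) + 2) * 2 := by
      intro h
      have h1 := hT (ord 5 (h + 1)) (tree 5 (h + 1)) ⟨tree_connected (by omega), tree_acyclic⟩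
        (fun v => by convert tree_degree (by omega) v) (by
          have := pow_le_ord 5 (h + 1)
          have h5 : 5 ^ (h + 1) = 5 ^ h * 5 := pow_succ _ _
          have h6 : 0 < 5 ^ h := by positivity
          omega)
      have h2 := gammaE_tree 5 h (by norm_num)
      have h2' : (gammaE (tree 5 (h + 1)) : ℝ) ≤ 4 ^ (h + 1) := by
        calc (gammaE (tree 5 (h + 1)) : ℝ) ≤ ((2 ^ (2 * h + 1) : ℕ) : ℝ) := by exact_mod_cast h2
          _ ≤ ((2 ^ (2 * (h + 1)) : ℕ) : ℝ) := by
            exact_mod_cast Nat.pow_le_pow_right (by norm_num) (by omega)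
          _ = 4 ^ (h + 1) := by
            push_cast
            rw [pow_mul]
            norm_num
      have h3 : ((5 : ℝ) ^ (h + 1)) ≤ (ord 5 (h + 1) : ℕ) := by exact_mod_cast pow_le_ord 5 (h + 1)
      have h4 : ((ord 5 (h + 1) : ℕ) : ℝ) ≤ 5 ^ (h + 2) := by
        have h4' := ord_le_pow 5 (h + 1) (by norm_num)
        have h4'' : ord 5 (h + 1) ≤ 5 ^ (h + 2) := by
          rw [pow_succ 5 (h + 1)]
          omega
        exact_mod_cast h4''
      have hpos : (0 : ℝ) < (ord 5 (h + 1) : ℕ) := by
        exact_mod_cast ord_pos 5 (h + 1)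
      have hlog : Real.log (ord 5 (h + 1) : ℕ) ≤ ((h : ℝ) + 2) * 2 := by
        calc Real.log (ord 5 (h + 1) : ℕ) ≤ Real.log (5 ^ (h + 2)) := Real.log_le_log hpos h4
          _ = ((h + 2 : ℕ) : ℝ) * Real.log 5 := Real.log_pow _ _
          _ ≤ ((h : ℝ) + 2) * 2 := by
            have h5 : Real.log 5 ≤ 2 := by
              rw [Real.log_le_iff_le_exp (by norm_num)]
              have := Real.add_one_le_exp (1 : ℝ)
              have h6 : Real.exp 2 = Real.exp 1 * Real.exp 1 := by
                rw [← Real.exp_add]; norm_num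
              have h7 := Real.exp_one_gt_d9
              rw [h6]
              nlinarith
            push_cast
            have h8 : (0 : ℝ) ≤ (h : ℝ) + 2 := by positivity
            exact mul_le_mul_of_nonneg_left h5 h8
      have hlogpos : 0 < Real.log (ord 5 (h + 1) : ℕ) := by
        apply Real.log_pos
        calc (1 : ℝ) < 5 ^ (h + 1) := one_lt_pow₀ (by norm_num) (by omega)
          _ ≤ _ := h3
      have h9 : c * (ord 5 (h + 1) : ℕ) ≤ 4 ^ (h + 1) * Real.log (ord 5 (h + 1) : ℕ) := by
        have := h1.trans h2'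
        rw [← mul_div_assoc, div_le_iff₀ hlogpos] at this
        exact this
      calc c * 5 ^ (h + 1) ≤ c * (ord 5 (h + 1) : ℕ) := mul_le_mul_of_nonneg_left h3 hc.le
        _ ≤ 4 ^ (h + 1) * Real.log (ord 5 (h + 1) : ℕ) := h9
        _ ≤ 4 ^ (h + 1) * (((h : ℝ) + 2) * 2) := mul_le_mul_of_nonneg_left hlog (by positivity)
        _ = _ := by ring
    have hlim : Filter.Tendsto (fun n : ℕ => (n : ℝ) * (4 / 5 : ℝ) ^ n) Filter.atTop (nhds 0) :=
      tendsto_self_mul_const_pow_of_lt_one (by norm_num) (by norm_num)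
    have hev := hlim.eventually (gt_mem_nhds (show (0 : ℝ) < c / 4 by positivity))
    obtain ⟨N, hN⟩ := Filter.eventually_atTop.1 hev
    have h1 := hN (N + 1) (by omega)
    have h2 := key N
    have h3 : ((4 : ℝ) / 5) ^ (N + 1) * 5 ^ (N + 1) = 4 ^ (N + 1) := by
      rw [← mul_pow]; norm_num
    have h5 : (0 : ℝ) < 5 ^ (N + 1) := by positivity
    have h4 : (0 : ℝ) < 4 ^ (N + 1) := by positivity
    have h6 : ((N + 1 : ℕ) : ℝ) * 4 ^ (N + 1) < c / 4 * 5 ^ (N + 1) := by
      calc ((N + 1 : ℕ) : ℝ) * 4 ^ (N + 1) = ((N + 1 : ℕ) : ℝ) * (4 / 5 : ℝ) ^ (N + 1) * 5 ^ (N + 1) := by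
            rw [mul_assoc, h3]
        _ < c / 4 * 5 ^ (N + 1) := mul_lt_mul_of_pos_right h1 h5
    push_cast at h6
    have h7 : (0 : ℝ) ≤ N := Nat.cast_nonneg N
    nlinarith

end Pool.Agent.Results.MP_75fda7_co.TreesBelowLinearH38
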